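import Pool.Agent.BER.Stmts

/-! # Squad BER (MP_be01ff_an), row LPD: derivatives in `LP`, `TL` -/

set_option autoImplicit false

namespace Pool.Agent.BER.H27

open Set Filter Topology MeasureTheory
open Pool.Agent.BER

noncomputable section

/-- the sign in the derivative of `tg` -/
def lpdS (s : Bool) : ℝ := bif s then 1 else -1

theorem lpd_tg (s : Bool) (j : ℕ) (ψ : ℝ) :
    HasDerivAt (fun r => tg s j r) (lpdS s * j * tg (!s) j ψ) ψ := by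
  have h0 : HasDerivAt (fun r : ℝ => (j : ℝ) * r) (j : ℝ) ψ := by
    simpa using (hasDerivAt_id ψ).const_mul (j : ℝ)
  cases s with
  | true =>
    show HasDerivAt (fun r : ℝ => Real.sin (j * r)) (1 * j * Real.cos (j * ψ)) ψ
    refine h0.sin.congr_deriv ?_
    ring
  | false =>
    show HasDerivAt (fun r : ℝ => Real.cos (j * r)) (-1 * j * Real.sin (j * ψ)) ψ
    refine h0.cos.congr_deriv ?_
    ring

section

variable {M : Type} [NormedAddCommGroup M] [NormedSpace ℝ M]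

/-- partial derivatives of a function of three variables -/
def Drv3 (P P1 P2 P3 : ℝ → ℝ → ℝ → M) : Prop :=
  (∀ ψ τ L, HasDerivAt (fun s => P s τ L) (P1 ψ τ L) ψ) ∧
  (∀ ψ τ L, HasDerivAt (fun s => P ψ s L) (P2 ψ τ L) τ) ∧
  ∀ ψ τ L, HasDerivAt (fun s => P ψ τ s) (P3 ψ τ L) L

theorem Drv3.q1 {P P1 P2 P3 : ℝ → ℝ → ℝ → M} (h : Drv3 P P1 P2 P3) (ψ τ L : ℝ) :
    q1 P ψ τ L = P1 ψ τ L := (h.1 ψ τ L).deriv

theorem Drv3.q2 {P P1 P2 P3 : ℝ → ℝ → ℝ → M} (h : Drv3 P P1 P2 P3) (ψ τ L : ℝ) :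
    q2 P ψ τ L = P2 ψ τ L := (h.2.1 ψ τ L).deriv

theorem Drv3.q3 {P P1 P2 P3 : ℝ → ℝ → ℝ → M} (h : Drv3 P P1 P2 P3) (ψ τ L : ℝ) :
    q3 P ψ τ L = P3 ψ τ L := (h.2.2 ψ τ L).deriv

theorem Drv3.dt {P P1 P2 P3 : ℝ → ℝ → ℝ → M} (h : Drv3 P P1 P2 P3) (p : ℕ) (ω ψ τ L : ℝ) :
    Dt p ω P ψ τ L =
      ω • P1 ψ τ L + τ • (P3 ψ τ L - (1 / (2 * (p : ℝ))) • P ψ τ L - τ • P2 ψ τ L) := by
  unfold Dt
  rw [h.q1, h.q2, h.q3]

theorem lpd_mem3 (N e : ℕ) (P : ℝ → ℝ → ℝ → M) (hP : P ∈ LP M N e) :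
    ∃ P1 P2 P3, Drv3 P P1 P2 P3 ∧ P1 ∈ LP M N e ∧ (fun ψ τ L => τ • P2 ψ τ L) ∈ LP M N e ∧
      P3 ∈ LP M N e := by
  refine Submodule.span_induction (p := fun P _ => ∃ P1 P2 P3, Drv3 P P1 P2 P3 ∧
    P1 ∈ LP M N e ∧ (fun ψ τ L => τ • P2 ψ τ L) ∈ LP M N e ∧ P3 ∈ LP M N e) ?_ ?_ ?_ ?_ hP
  · rintro _ ⟨k, b, j, s, x, hk, hj, rfl⟩
    have hgen : ∀ (k b : ℕ) (s : Bool), N ≤ k →
        (fun ψ τ L : ℝ => (τ ^ k * L ^ b * tg s j ψ) • x) ∈ LP M N e :=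
      fun k b s hk => Submodule.subset_span ⟨k, b, j, s, x, hk, hj, rfl⟩
    refine ⟨fun ψ τ L => (lpdS s * j) • ((τ ^ k * L ^ b * tg (!s) j ψ) • x),
      fun ψ τ L => ((k : ℝ) * τ ^ (k - 1) * L ^ b * tg s j ψ) • x,
      fun ψ τ L => (b : ℝ) • ((τ ^ k * L ^ (b - 1) * tg s j ψ) • x), ⟨?_, ?_, ?_⟩,
      Submodule.smul_mem _ _ (hgen k b (!s) hk), ?_, Submodule.smul_mem _ _ (hgen k (b - 1) s hk)⟩
    · intro ψ τ L
      refine (((lpd_tg s j ψ).const_mul (τ ^ k * L ^ b)).smul_const x).congr_deriv ?_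
      beta_reduce
      rw [smul_smul]
      congr 1
      ring
    · intro ψ τ L
      have h1 : HasDerivAt (fun r : ℝ => r ^ k * L ^ b * tg s j ψ)
          ((k : ℝ) * τ ^ (k - 1) * L ^ b * tg s j ψ) τ :=
        ((hasDerivAt_pow k τ).mul_const (L ^ b)).mul_const (tg s j ψ)
      exact h1.smul_const x
    · intro ψ τ L
      have h1 : HasDerivAt (fun r : ℝ => τ ^ k * r ^ b * tg s j ψ)
          (τ ^ k * ((b : ℝ) * L ^ (b - 1)) * tg s j ψ) L :=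
        ((hasDerivAt_pow b L).const_mul (τ ^ k)).mul_const (tg s j ψ)
      refine (h1.smul_const x).congr_deriv ?_
      beta_reduce
      rw [smul_smul]
      congr 1
      ring
    · have h2 : (fun ψ τ L : ℝ => τ • (((k : ℝ) * τ ^ (k - 1) * L ^ b * tg s j ψ) • x)) =
          (k : ℝ) • (fun ψ τ L : ℝ => (τ ^ k * L ^ b * tg s j ψ) • x) := by
        funext ψ τ L
        show τ • (((k : ℝ) * τ ^ (k - 1) * L ^ b * tg s j ψ) • x) =
          (k : ℝ) • ((τ ^ k * L ^ b * tg s j ψ) • x)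
        rw [smul_smul, smul_smul]
        congr 1
        rcases k with _ | k
        · simp
        · rw [Nat.add_sub_cancel, pow_succ]
          ring
      rw [h2]
      exact Submodule.smul_mem _ _ (hgen k b s hk)
  · refine ⟨0, 0, 0, ⟨fun ψ τ L => ?_, fun ψ τ L => ?_, fun ψ τ L => ?_⟩, Submodule.zero_mem _, ?_,
      Submodule.zero_mem _⟩
    · exact hasDerivAt_const ψ (0 : M)
    · exact hasDerivAt_const τ (0 : M)
    · exact hasDerivAt_const L (0 : M)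
    · have h2 : (fun ψ τ L : ℝ => τ • (0 : ℝ → ℝ → ℝ → M) ψ τ L) = 0 := by
        funext ψ τ L
        show τ • (0 : M) = 0
        rw [smul_zero]
      rw [h2]
      exact Submodule.zero_mem _
  · rintro P Q _ _ ⟨P1, P2, P3, h, h1, h2, h3⟩ ⟨Q1, Q2, Q3, g, g1, g2, g3⟩
    refine ⟨P1 + Q1, P2 + Q2, P3 + Q3, ⟨fun ψ τ L => ?_, fun ψ τ L => ?_, fun ψ τ L => ?_⟩,
      Submodule.add_mem _ h1 g1, ?_, Submodule.add_mem _ h3 g3⟩
    · exact (h.1 ψ τ L).add (g.1 ψ τ L)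
    · exact (h.2.1 ψ τ L).add (g.2.1 ψ τ L)
    · exact (h.2.2 ψ τ L).add (g.2.2 ψ τ L)
    · have h4 : (fun ψ τ L : ℝ => τ • (P2 + Q2) ψ τ L) =
          (fun ψ τ L : ℝ => τ • P2 ψ τ L) + fun ψ τ L : ℝ => τ • Q2 ψ τ L := by
        funext ψ τ L
        exact smul_add τ (P2 ψ τ L) (Q2 ψ τ L)
      rw [h4]
      exact Submodule.add_mem _ h2 g2
  · rintro c P _ ⟨P1, P2, P3, h, h1, h2, h3⟩
    refine ⟨c • P1, c • P2, c • P3, ⟨fun ψ τ L => ?_, fun ψ τ L => ?_, fun ψ τ L => ?_⟩,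
      Submodule.smul_mem _ _ h1, ?_, Submodule.smul_mem _ _ h3⟩
    · exact (h.1 ψ τ L).const_smul c
    · exact (h.2.1 ψ τ L).const_smul c
    · exact (h.2.2 ψ τ L).const_smul c
    · have h4 : (fun ψ τ L : ℝ => τ • (c • P2) ψ τ L) = c • (fun ψ τ L : ℝ => τ • P2 ψ τ L) := by
        funext ψ τ L
        exact smul_comm τ c (P2 ψ τ L)
      rw [h4]
      exact Submodule.smul_mem _ _ h2

/-- multiplication by `τ` -/
theorem lpd_tau (N e : ℕ) (P : ℝ → ℝ → ℝ → M) (hP : P ∈ LP M N e) :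
    (fun ψ τ L => τ • P ψ τ L) ∈ LP M N e := by
  refine Submodule.span_induction (p := fun P _ => (fun ψ τ L => τ • P ψ τ L) ∈ LP M N e)
    ?_ ?_ ?_ ?_ hP
  · rintro _ ⟨k, b, j, s, x, hk, hj, rfl⟩
    refine Submodule.subset_span ⟨k + 1, b, j, s, x, hk.trans (Nat.le_succ k), hj, ?_⟩
    funext ψ τ L
    rw [smul_smul]
    congr 1
    ring
  · have h2 : (fun ψ τ L : ℝ => τ • (0 : ℝ → ℝ → ℝ → M) ψ τ L) = 0 := by
      funext ψ τ L
      show τ • (0 : M) = 0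
      rw [smul_zero]
    rw [h2]
    exact Submodule.zero_mem _
  · intro P Q _ _ h g
    have h4 : (fun ψ τ L : ℝ => τ • (P + Q) ψ τ L) =
        (fun ψ τ L : ℝ => τ • P ψ τ L) + fun ψ τ L : ℝ => τ • Q ψ τ L := by
      funext ψ τ L
      exact smul_add τ (P ψ τ L) (Q ψ τ L)
    rw [h4]
    exact Submodule.add_mem _ h g
  · intro c P _ h
    have h4 : (fun ψ τ L : ℝ => τ • (c • P) ψ τ L) = c • (fun ψ τ L : ℝ => τ • P ψ τ L) := by
      funext ψ τ L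
      exact smul_comm τ c (P ψ τ L)
    rw [h4]
    exact Submodule.smul_mem _ _ h

/-- partial derivatives of a function of two variables, with the mixed derivative -/
def Drv2 (V V1 V2 V12 : ℝ → ℝ → M) : Prop :=
  (∀ ψ L, HasDerivAt (fun s => V s L) (V1 ψ L) ψ) ∧
  (∀ ψ L, HasDerivAt (fun s => V ψ s) (V2 ψ L) L) ∧
  (∀ ψ L, HasDerivAt (fun s => V2 s L) (V12 ψ L) ψ) ∧
  ∀ ψ L, HasDerivAt (fun s => V1 ψ s) (V12 ψ L) L

theorem Drv2.d1 {V V1 V2 V12 : ℝ → ℝ → M} (h : Drv2 V V1 V2 V12) : d1 V = V1 := by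
  funext ψ L
  exact (h.1 ψ L).deriv

theorem Drv2.d2 {V V1 V2 V12 : ℝ → ℝ → M} (h : Drv2 V V1 V2 V12) : d2 V = V2 := by
  funext ψ L
  exact (h.2.1 ψ L).deriv

theorem Drv2.comm {V V1 V2 V12 : ℝ → ℝ → M} (h : Drv2 V V1 V2 V12) :
    Pool.Agent.BER.d1 (Pool.Agent.BER.d2 V) = Pool.Agent.BER.d2 (Pool.Agent.BER.d1 V) := by
  rw [h.d1, h.d2]
  funext ψ L
  exact (h.2.2.1 ψ L).deriv.trans (h.2.2.2 ψ L).deriv.symm

theorem lpd_mem2 (J : ℕ) (V : ℝ → ℝ → M) (hV : V ∈ TL M J) :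
    ∃ V1 V2 V12, Drv2 V V1 V2 V12 ∧ V1 ∈ TL M J ∧ V2 ∈ TL M J := by
  refine Submodule.span_induction (p := fun V _ => ∃ V1 V2 V12, Drv2 V V1 V2 V12 ∧
    V1 ∈ TL M J ∧ V2 ∈ TL M J) ?_ ?_ ?_ ?_ hV
  · rintro _ ⟨b, j, s, x, hj, hJ, rfl⟩
    have hgen : ∀ (b : ℕ) (s : Bool),
        (fun ψ L : ℝ => (L ^ b * tg s j ψ) • x) ∈ TL M J :=
      fun b s => Submodule.subset_span ⟨b, j, s, x, hj, hJ, rfl⟩
    refine ⟨fun ψ L => (lpdS s * j) • ((L ^ b * tg (!s) j ψ) • x),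
      fun ψ L => (b : ℝ) • ((L ^ (b - 1) * tg s j ψ) • x),
      fun ψ L => (lpdS s * j) • (((b : ℝ) * L ^ (b - 1) * tg (!s) j ψ) • x), ⟨?_, ?_, ?_, ?_⟩,
      Submodule.smul_mem _ _ (hgen b (!s)), Submodule.smul_mem _ _ (hgen (b - 1) s)⟩
    · intro ψ L
      refine (((lpd_tg s j ψ).const_mul (L ^ b)).smul_const x).congr_deriv ?_
      beta_reduce
      rw [smul_smul]
      congr 1
      ring
    · intro ψ L
      have h1 : HasDerivAt (fun r : ℝ => r ^ b * tg s j ψ)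
          ((b : ℝ) * L ^ (b - 1) * tg s j ψ) L :=
        (hasDerivAt_pow b L).mul_const (tg s j ψ)
      refine (h1.smul_const x).congr_deriv ?_
      beta_reduce
      rw [smul_smul]
      congr 1
      ring
    · intro ψ L
      refine ((((lpd_tg s j ψ).const_mul (L ^ (b - 1))).smul_const x).const_smul
        (b : ℝ)).congr_deriv ?_
      beta_reduce
      rw [smul_smul, smul_smul]
      congr 1
      ring
    · intro ψ L
      have h1 : HasDerivAt (fun r : ℝ => r ^ b * tg (!s) j ψ)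
          ((b : ℝ) * L ^ (b - 1) * tg (!s) j ψ) L :=
        (hasDerivAt_pow b L).mul_const (tg (!s) j ψ)
      exact (h1.smul_const x).const_smul (lpdS s * j)
  · refine ⟨0, 0, 0, ⟨fun ψ L => ?_, fun ψ L => ?_, fun ψ L => ?_, fun ψ L => ?_⟩,
      Submodule.zero_mem _, Submodule.zero_mem _⟩
    · exact hasDerivAt_const ψ (0 : M)
    · exact hasDerivAt_const L (0 : M)
    · exact hasDerivAt_const ψ (0 : M)
    · exact hasDerivAt_const L (0 : M)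
  · rintro P Q _ _ ⟨P1, P2, P3, h, h1, h2⟩ ⟨Q1, Q2, Q3, g, g1, g2⟩
    exact ⟨P1 + Q1, P2 + Q2, P3 + Q3, ⟨fun ψ L => (h.1 ψ L).add (g.1 ψ L),
      fun ψ L => (h.2.1 ψ L).add (g.2.1 ψ L), fun ψ L => (h.2.2.1 ψ L).add (g.2.2.1 ψ L),
      fun ψ L => (h.2.2.2 ψ L).add (g.2.2.2 ψ L)⟩,
      Submodule.add_mem _ h1 g1, Submodule.add_mem _ h2 g2⟩
  · rintro c P _ ⟨P1, P2, P3, h, h1, h2⟩
    exact ⟨c • P1, c • P2, c • P3, ⟨fun ψ L => (h.1 ψ L).const_smul c,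
      fun ψ L => (h.2.1 ψ L).const_smul c, fun ψ L => (h.2.2.1 ψ L).const_smul c,
      fun ψ L => (h.2.2.2 ψ L).const_smul c⟩,
      Submodule.smul_mem _ _ h1, Submodule.smul_mem _ _ h2⟩

variable {M' : Type} [NormedAddCommGroup M'] [NormedSpace ℝ M']

theorem lpd_T {f : ℝ → M} {f' : M} {x : ℝ} (T : M →L[ℝ] M') (h : HasDerivAt f f' x) :
    HasDerivAt (fun s => T (f s)) (T f') x := T.hasFDerivAt.comp_hasDerivAt x h

theorem lpd_T3 (T : M →L[ℝ] M') (N e : ℕ) (P : ℝ → ℝ → ℝ → M) (hP : P ∈ LP M N e) :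
    (fun ψ τ L => T (P ψ τ L)) ∈ LP M' N e := by
  refine Submodule.span_induction (p := fun P _ => (fun ψ τ L => T (P ψ τ L)) ∈ LP M' N e)
    ?_ ?_ ?_ ?_ hP
  · rintro _ ⟨k, b, j, s, x, hk, hj, rfl⟩
    refine Submodule.subset_span ⟨k, b, j, s, T x, hk, hj, ?_⟩
    funext ψ τ L
    rw [map_smul]
  · have h2 : (fun ψ τ L : ℝ => T ((0 : ℝ → ℝ → ℝ → M) ψ τ L)) = 0 := by
      funext ψ τ L
      exact map_zero T
    rw [h2]
    exact Submodule.zero_mem _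
  · intro P Q _ _ h g
    have h4 : (fun ψ τ L : ℝ => T ((P + Q) ψ τ L)) =
        (fun ψ τ L : ℝ => T (P ψ τ L)) + fun ψ τ L : ℝ => T (Q ψ τ L) := by
      funext ψ τ L
      exact map_add T (P ψ τ L) (Q ψ τ L)
    rw [h4]
    exact Submodule.add_mem _ h g
  · intro c P _ h
    have h4 : (fun ψ τ L : ℝ => T ((c • P) ψ τ L)) = c • (fun ψ τ L : ℝ => T (P ψ τ L)) := by
      funext ψ τ L
      exact map_smul T c (P ψ τ L)
    rw [h4]
    exact Submodule.smul_mem _ _ h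

theorem lpd_T2 (T : M →L[ℝ] M') (J : ℕ) (V : ℝ → ℝ → M) (hV : V ∈ TL M J) :
    (fun ψ L => T (V ψ L)) ∈ TL M' J := by
  refine Submodule.span_induction (p := fun V _ => (fun ψ L => T (V ψ L)) ∈ TL M' J)
    ?_ ?_ ?_ ?_ hV
  · rintro _ ⟨b, j, s, x, hj, hJ, rfl⟩
    refine Submodule.subset_span ⟨b, j, s, T x, hj, hJ, ?_⟩
    funext ψ L
    rw [map_smul]
  · have h2 : (fun ψ L : ℝ => T ((0 : ℝ → ℝ → M) ψ L)) = 0 := by
      funext ψ L
      exact map_zero T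
    rw [h2]
    exact Submodule.zero_mem _
  · intro P Q _ _ h g
    have h4 : (fun ψ L : ℝ => T ((P + Q) ψ L)) =
        (fun ψ L : ℝ => T (P ψ L)) + fun ψ L : ℝ => T (Q ψ L) := by
      funext ψ L
      exact map_add T (P ψ L) (Q ψ L)
    rw [h4]
    exact Submodule.add_mem _ h g
  · intro c P _ h
    have h4 : (fun ψ L : ℝ => T ((c • P) ψ L)) = c • (fun ψ L : ℝ => T (P ψ L)) := by
      funext ψ L
      exact map_smul T c (P ψ L)
    rw [h4]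
    exact Submodule.smul_mem _ _ h

end

theorem lpd : LpdStmt := by
  intro M M' _ _ _ _ p ω
  refine ⟨?_, ?_, ?_, ?_, ?_⟩
  · intro N e P hP
    obtain ⟨P1, P2, P3, h, h1, h2, h3⟩ := lpd_mem3 N e P hP
    have h4 : Dt p ω P = ω • P1 + ((fun ψ τ L => τ • P3 ψ τ L) -
        (1 / (2 * (p : ℝ))) • (fun ψ τ L => τ • P ψ τ L) -
        fun ψ τ L => τ • (fun ψ τ L => τ • P2 ψ τ L) ψ τ L) := by
      funext ψ τ L
      rw [h.dt]
      show ω • P1 ψ τ L + τ • (P3 ψ τ L - (1 / (2 * (p : ℝ))) • P ψ τ L - τ • P2 ψ τ L) =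
        ω • P1 ψ τ L + (τ • P3 ψ τ L - (1 / (2 * (p : ℝ))) • (τ • P ψ τ L) -
          τ • (τ • P2 ψ τ L))
      rw [smul_sub, smul_sub, smul_comm τ (1 / (2 * (p : ℝ)))]
    rw [h4]
    exact Submodule.add_mem _ (Submodule.smul_mem _ _ h1)
      (Submodule.sub_mem _ (Submodule.sub_mem _ (lpd_tau N e P3 h3)
        (Submodule.smul_mem _ _ (lpd_tau N e P hP))) (lpd_tau N e _ h2))
  · intro e P hP Q hQ
    obtain ⟨P1, P2, P3, h, -⟩ := lpd_mem3 0 e P hP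
    obtain ⟨Q1, Q2, Q3, g, -⟩ := lpd_mem3 0 e Q hQ
    have hs : Drv3 (fun ψ τ L => P ψ τ L + Q ψ τ L) (fun ψ τ L => P1 ψ τ L + Q1 ψ τ L)
        (fun ψ τ L => P2 ψ τ L + Q2 ψ τ L) (fun ψ τ L => P3 ψ τ L + Q3 ψ τ L) :=
      ⟨fun ψ τ L => (h.1 ψ τ L).add (g.1 ψ τ L), fun ψ τ L => (h.2.1 ψ τ L).add (g.2.1 ψ τ L),
        fun ψ τ L => (h.2.2 ψ τ L).add (g.2.2 ψ τ L)⟩
    funext ψ τ L
    rw [hs.dt, h.dt, g.dt]
    simp only [smul_add, smul_sub]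
    abel
  · intro T N e P hP
    refine ⟨lpd_T3 T N e P hP, ?_⟩
    obtain ⟨P1, P2, P3, h, -⟩ := lpd_mem3 N e P hP
    have hs : Drv3 (fun ψ τ L => T (P ψ τ L)) (fun ψ τ L => T (P1 ψ τ L))
        (fun ψ τ L => T (P2 ψ τ L)) (fun ψ τ L => T (P3 ψ τ L)) :=
      ⟨fun ψ τ L => lpd_T T (h.1 ψ τ L), fun ψ τ L => lpd_T T (h.2.1 ψ τ L),
        fun ψ τ L => lpd_T T (h.2.2 ψ τ L)⟩
    funext ψ τ L
    rw [hs.dt, h.dt]
    simp only [map_add, map_sub, map_smul]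
  · intro J V hV
    obtain ⟨V1, V2, V12, h, h1, h2⟩ := lpd_mem2 J V hV
    refine ⟨?_, ?_, h.comm, ?_, ?_⟩
    · rw [h.d1]; exact h1
    · rw [h.d2]; exact h2
    · intro T
      have hs : Drv2 (fun ψ L => T (V ψ L)) (fun ψ L => T (V1 ψ L)) (fun ψ L => T (V2 ψ L))
          (fun ψ L => T (V12 ψ L)) :=
        ⟨fun ψ L => lpd_T T (h.1 ψ L), fun ψ L => lpd_T T (h.2.1 ψ L),
          fun ψ L => lpd_T T (h.2.2.1 ψ L), fun ψ L => lpd_T T (h.2.2.2 ψ L)⟩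
      refine ⟨lpd_T2 T J V hV, ?_, ?_⟩
      · rw [hs.d1, h.d1]
      · rw [hs.d2, h.d2]
    · intro k
      have hs : Drv3 (fun ψ τ L => τ ^ k • V ψ L) (fun ψ τ L => τ ^ k • V1 ψ L)
          (fun ψ τ L => ((k : ℝ) * τ ^ (k - 1)) • V ψ L) (fun ψ τ L => τ ^ k • V2 ψ L) :=
        ⟨fun ψ τ L => (h.1 ψ L).const_smul (τ ^ k),
          fun ψ τ L => (hasDerivAt_pow k τ).smul_const (V ψ L),
          fun ψ τ L => (h.2.1 ψ L).const_smul (τ ^ k)⟩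
      funext ψ τ L
      rw [hs.dt, h.d1, h.d2]
      have hk : τ * ((k : ℝ) * τ ^ (k - 1)) = (k : ℝ) * τ ^ k := by
        rcases k with _ | k
        · simp
        · rw [Nat.add_sub_cancel, pow_succ]
          ring
      rw [smul_smul τ, hk]
      simp only [smul_sub, smul_smul, add_smul, pow_succ]
      have e1 : ω * τ ^ k = τ ^ k * ω := mul_comm _ _
      have e2 : τ * τ ^ k = τ ^ k * τ := mul_comm _ _
      have e3 : τ * (1 / (2 * (p : ℝ)) * τ ^ k) = τ ^ k * τ * (1 / (2 * (p : ℝ))) := by ring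
      have e4 : τ * ((k : ℝ) * τ ^ k) = τ ^ k * τ * (k : ℝ) := by ring
      rw [e1, e2, e3, e4, smul_add, smul_smul, smul_smul]
      abel
  · intro J V hV V' hV'
    obtain ⟨V1, V2, V12, h, -⟩ := lpd_mem2 J V hV
    obtain ⟨W1, W2, W12, g, -⟩ := lpd_mem2 J V' hV'
    have hs : Drv2 (fun ψ L => V ψ L + V' ψ L) (fun ψ L => V1 ψ L + W1 ψ L)
        (fun ψ L => V2 ψ L + W2 ψ L) (fun ψ L => V12 ψ L + W12 ψ L) :=
      ⟨fun ψ L => (h.1 ψ L).add (g.1 ψ L), fun ψ L => (h.2.1 ψ L).add (g.2.1 ψ L),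
        fun ψ L => (h.2.2.1 ψ L).add (g.2.2.1 ψ L), fun ψ L => (h.2.2.2 ψ L).add (g.2.2.2 ψ L)⟩
    refine ⟨?_, ?_⟩
    · rw [hs.d1, h.d1, g.d1]
    · rw [hs.d2, h.d2, g.d2]

end

end Pool.Agent.BER.H27
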