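import Pool.Agent.BER.StmtsE

set_option autoImplicit false

namespace Pool.Agent.BER.H27

open Set Filter Topology
open Pool.Agent.BER

theorem yas_lim (K : ℝ) (W W' : ℝ → ℝ) (hW : ∀ x, 1 ≤ x → HasDerivAt W (W' x) x)
    (hb : ∀ x, 1 ≤ x → |W' x| ≤ K / x ^ 3) :
    ∃ w, ∀ x, 1 ≤ x → |W x - w| ≤ K / (2 * x ^ 2) := by
  have hK : 0 ≤ K := by
    have h1 := hb 1 le_rfl
    have h2 := abs_nonneg (W' 1)
    simp only [one_pow, div_one] at h1
    linarith
  have hd : ∀ x : ℝ, 1 ≤ x → HasDerivAt (fun x : ℝ => K / (2 * x ^ 2)) (-(K / x ^ 3)) x := by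
    intro x hx
    have hx0 : x ≠ 0 := by positivity
    have h1 : HasDerivAt (fun x : ℝ => 2 * x ^ 2) (2 * (2 * x)) x := by
      simpa using (hasDerivAt_pow 2 x).const_mul 2
    have h2 := (hasDerivAt_const x K).div h1 (by positivity)
    refine h2.congr_deriv ?_
    field_simp
    ring
  have hmono : MonotoneOn (fun x => W x - K / (2 * x ^ 2)) (Ici 1) := by
    refine monotoneOn_of_deriv_nonneg (convex_Ici 1) ?_ ?_ ?_
    · intro x hx
      exact ((hW x hx).sub (hd x hx)).continuousAt.continuousWithinAt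
    · intro x hx
      rw [interior_Ici] at hx
      have hx1 : (1 : ℝ) ≤ x := le_of_lt hx
      exact ((hW x hx1).sub (hd x hx1)).differentiableAt.differentiableWithinAt
    · intro x hx
      rw [interior_Ici] at hx
      have hx1 : (1 : ℝ) ≤ x := le_of_lt hx
      have h1 : deriv (fun x => W x - K / (2 * x ^ 2)) x = W' x - -(K / x ^ 3) :=
        ((hW x hx1).sub (hd x hx1)).deriv
      rw [h1]
      have := (abs_le.mp (hb x hx1)).1
      linarith
  have hanti : AntitoneOn (fun x => W x + K / (2 * x ^ 2)) (Ici 1) := by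
    refine antitoneOn_of_deriv_nonpos (convex_Ici 1) ?_ ?_ ?_
    · intro x hx
      exact ((hW x hx).add (hd x hx)).continuousAt.continuousWithinAt
    · intro x hx
      rw [interior_Ici] at hx
      have hx1 : (1 : ℝ) ≤ x := le_of_lt hx
      exact ((hW x hx1).add (hd x hx1)).differentiableAt.differentiableWithinAt
    · intro x hx
      rw [interior_Ici] at hx
      have hx1 : (1 : ℝ) ≤ x := le_of_lt hx
      have h1 : deriv (fun x => W x + K / (2 * x ^ 2)) x = W' x + -(K / x ^ 3) :=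
        ((hW x hx1).add (hd x hx1)).deriv
      rw [h1]
      have := (abs_le.mp (hb x hx1)).2
      linarith
  have hle : ∀ x x' : ℝ, 1 ≤ x → 1 ≤ x' → W x' - K / (2 * x' ^ 2) ≤ W x + K / (2 * x ^ 2) := by
    intro x x' hx hx'
    have p1 : 0 ≤ K / (2 * x ^ 2) := by positivity
    have p2 : 0 ≤ K / (2 * x' ^ 2) := by positivity
    rcases le_total x x' with h | h
    · have := hanti (mem_Ici.mpr hx) (mem_Ici.mpr hx') h
      simp only at this
      linarith
    · have := hmono (mem_Ici.mpr hx') (mem_Ici.mpr hx) h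
      simp only at this
      linarith
  have hne : ((fun x => W x - K / (2 * x ^ 2)) '' Ici 1).Nonempty :=
    ⟨_, 1, mem_Ici.mpr le_rfl, rfl⟩
  have hbd : BddAbove ((fun x => W x - K / (2 * x ^ 2)) '' Ici 1) := by
    refine ⟨W 1 + K / (2 * 1 ^ 2), ?_⟩
    rintro _ ⟨x', hx', rfl⟩
    exact hle 1 x' le_rfl hx'
  refine ⟨sSup ((fun x => W x - K / (2 * x ^ 2)) '' Ici 1), fun x hx => ?_⟩
  have h1 : W x - K / (2 * x ^ 2) ≤ sSup ((fun x => W x - K / (2 * x ^ 2)) '' Ici 1) :=
    le_csSup hbd ⟨x, hx, rfl⟩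
  have h2 : sSup ((fun x => W x - K / (2 * x ^ 2)) '' Ici 1) ≤ W x + K / (2 * x ^ 2) := by
    refine csSup_le hne ?_
    rintro _ ⟨x', hx', rfl⟩
    exact hle x x' hx hx'
  rw [abs_le]
  constructor <;> linarith

theorem yas_dE (c : ℝ) (y y' : ℝ → ℝ) (h : Bes c y y') (σ x : ℝ) (hx : 0 < x) :
    HasDerivAt (fun x => (y x ^ 2 + y' x ^ 2) * Real.exp (σ / x))
      (Real.exp (σ / x) / x ^ 2 * (2 * c * (y x * y' x) - σ * (y x ^ 2 + y' x ^ 2))) x := by
  obtain ⟨h1, h2, -⟩ := h
  have hx0 : x ≠ 0 := hx.ne'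
  have a1 : HasDerivAt (fun x => y x ^ 2 + y' x ^ 2)
      (2 * y x * y' x + 2 * y' x * ((c / x ^ 2 - 1) * y x)) x := by
    have := ((h1 x hx).pow 2).add ((h2 x hx).pow 2)
    refine this.congr_deriv ?_
    norm_num
  have a2 : HasDerivAt (fun x : ℝ => Real.exp (σ / x)) (Real.exp (σ / x) * (-(σ / x ^ 2))) x := by
    have h3 : HasDerivAt (fun x : ℝ => σ / x) (-(σ / x ^ 2)) x := by
      have := (hasDerivAt_const x σ).div (hasDerivAt_id x) hx0
      refine this.congr_deriv ?_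
      simp only [id]
      field_simp
      ring
    exact h3.exp
  refine (a1.mul a2).congr_deriv ?_
  field_simp
  ring

theorem yas_E (c : ℝ) (y y' : ℝ → ℝ) (h : Bes c y y') :
    0 < y 1 ^ 2 + y' 1 ^ 2 ∧ ∀ x, 1 ≤ x →
      (y 1 ^ 2 + y' 1 ^ 2) / Real.exp (|c| / 2) ^ 2 ≤ y x ^ 2 + y' x ^ 2 ∧
      y x ^ 2 + y' x ^ 2 ≤ (y 1 ^ 2 + y' 1 ^ 2) * Real.exp (|c| / 2) ^ 2 := by
  have key : ∀ x, |2 * c * (y x * y' x)| ≤ |c| * (y x ^ 2 + y' x ^ 2) := by
    intro x
    have h1 : |2 * c * (y x * y' x)| = |c| * (2 * |y x| * |y' x|) := by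
      rw [abs_mul, abs_mul, abs_mul, abs_two]
      ring
    rw [h1]
    refine mul_le_mul_of_nonneg_left ?_ (abs_nonneg c)
    have := two_mul_le_add_sq (|y x|) (|y' x|)
    rw [sq_abs, sq_abs] at this
    exact this
  have hmono : MonotoneOn (fun x => (y x ^ 2 + y' x ^ 2) * Real.exp (-|c| / x)) (Ioi 0) := by
    refine monotoneOn_of_deriv_nonneg (convex_Ioi 0) ?_ ?_ ?_
    · intro x hx
      exact (yas_dE c y y' h (-|c|) x hx).continuousAt.continuousWithinAt
    · intro x hx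
      rw [interior_Ioi] at hx
      exact (yas_dE c y y' h (-|c|) x hx).differentiableAt.differentiableWithinAt
    · intro x hx
      rw [interior_Ioi] at hx
      rw [(yas_dE c y y' h (-|c|) x hx).deriv]
      have hx1 : (0 : ℝ) < x := hx
      have := (abs_le.mp (key x)).1
      refine mul_nonneg (by positivity) ?_
      linarith
  have hanti : AntitoneOn (fun x => (y x ^ 2 + y' x ^ 2) * Real.exp (|c| / x)) (Ioi 0) := by
    refine antitoneOn_of_deriv_nonpos (convex_Ioi 0) ?_ ?_ ?_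
    · intro x hx
      exact (yas_dE c y y' h (|c|) x hx).continuousAt.continuousWithinAt
    · intro x hx
      rw [interior_Ioi] at hx
      exact (yas_dE c y y' h (|c|) x hx).differentiableAt.differentiableWithinAt
    · intro x hx
      rw [interior_Ioi] at hx
      rw [(yas_dE c y y' h (|c|) x hx).deriv]
      have hx1 : (0 : ℝ) < x := hx
      have := (abs_le.mp (key x)).2
      refine mul_nonpos_of_nonneg_of_nonpos (by positivity) ?_
      linarith
  have e1 : Real.exp (|c| / 2) ^ 2 = Real.exp |c| := by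
    rw [← Real.exp_nat_mul]
    congr 1
    push_cast
    ring
  have hlow : ∀ x, 0 < x → 1 ≤ x →
      (y 1 ^ 2 + y' 1 ^ 2) / Real.exp (|c| / 2) ^ 2 ≤ y x ^ 2 + y' x ^ 2 := by
    intro x hx hx1
    have h1 := hmono (mem_Ioi.mpr one_pos) (mem_Ioi.mpr hx) hx1
    simp only [div_one] at h1
    have h2 : Real.exp (-|c| / x) ≤ 1 := by
      rw [Real.exp_le_one_iff]
      exact div_nonpos_of_nonpos_of_nonneg (neg_nonpos.mpr (abs_nonneg c)) hx.le
    have h3 : (y x ^ 2 + y' x ^ 2) * Real.exp (-|c| / x) ≤ (y x ^ 2 + y' x ^ 2) * 1 :=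
      mul_le_mul_of_nonneg_left h2 (by positivity)
    rw [e1, div_eq_mul_inv, ← Real.exp_neg]
    linarith
  have hupp : ∀ x, 0 < x → 1 ≤ x →
      y x ^ 2 + y' x ^ 2 ≤ (y 1 ^ 2 + y' 1 ^ 2) * Real.exp (|c| / 2) ^ 2 := by
    intro x hx hx1
    have h1 := hanti (mem_Ioi.mpr one_pos) (mem_Ioi.mpr hx) hx1
    simp only [div_one] at h1
    have h2 : 1 ≤ Real.exp (|c| / x) := by
      rw [Real.one_le_exp_iff]
      exact div_nonneg (abs_nonneg c) hx.le
    have h3 : (y x ^ 2 + y' x ^ 2) * 1 ≤ (y x ^ 2 + y' x ^ 2) * Real.exp (|c| / x) :=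
      mul_le_mul_of_nonneg_left h2 (by positivity)
    rw [e1]
    linarith
  refine ⟨?_, fun x hx => ⟨hlow x (by linarith) hx, hupp x (by linarith) hx⟩⟩
  by_contra hcon
  have h0 : y 1 ^ 2 + y' 1 ^ 2 = 0 := le_antisymm (not_lt.mp hcon) (by positivity)
  obtain ⟨x, hx, hy⟩ := h.2.2
  have hpos : 0 < y x ^ 2 + y' x ^ 2 := by positivity
  rcases le_total 1 x with h1 | h1
  · have := hupp x hx h1
    rw [h0, zero_mul] at this
    linarith
  · have h2 := hmono (mem_Ioi.mpr hx) (mem_Ioi.mpr one_pos) h1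
    simp only [h0, zero_mul] at h2
    have h3 : 0 < (y x ^ 2 + y' x ^ 2) * Real.exp (-|c| / x) := by positivity
    linarith

/-- The comparison function. -/
noncomputable def yasW (c : ℝ) (y y' S T : ℝ → ℝ) (x : ℝ) : ℝ :=
  y x * (T x - c / (2 * x) * S x - c / (2 * x ^ 2) * T x) - y' x * (S x + c / (2 * x) * T x)

theorem yas_dW (c : ℝ) (y y' S T : ℝ → ℝ) (h : Bes c y y') (hS : ∀ x, HasDerivAt S (T x) x)
    (hT : ∀ x, HasDerivAt T (-S x) x) (x : ℝ) (hx : 0 < x) :
    HasDerivAt (yasW c y y' S T) ((c - c ^ 2 / 2) * T x * y x / x ^ 3) x := by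
  obtain ⟨h1, h2, -⟩ := h
  have hx0 : x ≠ 0 := hx.ne'
  have b1 : HasDerivAt (fun x : ℝ => c / (2 * x)) (-(c / (2 * x ^ 2))) x := by
    have h3 : HasDerivAt (fun x : ℝ => 2 * x) 2 x := by
      simpa using (hasDerivAt_id x).const_mul 2
    have := (hasDerivAt_const x c).div h3 (by positivity)
    refine this.congr_deriv ?_
    field_simp
    ring
  have b2 : HasDerivAt (fun x : ℝ => c / (2 * x ^ 2)) (-(c / x ^ 3)) x := by
    have h3 : HasDerivAt (fun x : ℝ => 2 * x ^ 2) (2 * (2 * x)) x := by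
      simpa using (hasDerivAt_pow 2 x).const_mul 2
    have := (hasDerivAt_const x c).div h3 (by positivity)
    refine this.congr_deriv ?_
    field_simp
    ring
  have b3 := (h1 x hx).mul (((hT x).sub (b1.mul (hS x))).sub (b2.mul (hT x)))
  have b4 := (h2 x hx).mul ((hS x).add (b1.mul (hT x)))
  have b5 := b3.sub b4
  refine (b5.congr_deriv ?_)
  simp only [Pi.mul_apply, Pi.sub_apply, Pi.add_apply]
  field_simp
  ring

theorem yas_trig (c x β D : ℝ) (hx : 1 ≤ x) (hc : |c| ≤ x)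
    (hD : |Real.sin (x - β) + c / (2 * x) * Real.cos (x - β)| ≤ D / x ^ 2) :
    ∃ k : ℤ, |x - β - k * Real.pi + c / (2 * x)| ≤ 2 * (D + c ^ 2) / x ^ 2 := by
  have hx0 : 0 < x := by linarith
  set h : ℝ := c / (2 * x) with hh
  have hh1 : |h| ≤ 1 / 2 := by
    rw [hh, abs_div, abs_of_pos (by positivity : (0 : ℝ) < 2 * x), div_le_iff₀ (by positivity)]
    linarith
  have hh2 : h ^ 2 = c ^ 2 / 4 / x ^ 2 := by
    rw [hh]
    field_simp
    ring
  have hcos : |1 - Real.cos h| ≤ h ^ 2 := by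
    rw [abs_of_nonneg (by linarith [Real.cos_le_one h])]
    have := Real.one_sub_sq_div_two_le_cos (x := h)
    nlinarith [sq_nonneg h]
  have hsin : |h - Real.sin h| ≤ h ^ 2 := by
    have h1 := Real.sin_bound (x := h) (by linarith)
    have h2 : |h - Real.sin h| ≤ |Real.sin h - (h - h ^ 3 / 6)| + |h ^ 3 / 6| := by
      have : h - Real.sin h = -(Real.sin h - (h - h ^ 3 / 6)) + h ^ 3 / 6 := by ring
      rw [this]
      refine (abs_add_le _ _).trans ?_
      rw [abs_neg]
    have h3 : |h ^ 3 / 6| = |h| ^ 3 / 6 := by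
      rw [abs_div, abs_pow, abs_of_pos (by norm_num : (0 : ℝ) < 6)]
    have h4 : h ^ 2 = |h| ^ 2 := (sq_abs h).symm
    have h5 := abs_nonneg h
    have h6 : |h| ^ 3 ≤ |h| ^ 2 := pow_le_pow_of_le_one h5 (by linarith) (by norm_num)
    have h7 : |h| ^ 4 ≤ |h| ^ 2 := pow_le_pow_of_le_one h5 (by linarith) (by norm_num)
    have h8 : 0 ≤ |h| ^ 2 := by positivity
    rw [h4]
    rw [h3] at h2
    nlinarith
  have hs : |Real.sin (x - β + h)| ≤ (D + c ^ 2) / x ^ 2 := by
    have e : Real.sin (x - β + h) = (Real.sin (x - β) + h * Real.cos (x - β)) -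
        Real.sin (x - β) * (1 - Real.cos h) - Real.cos (x - β) * (h - Real.sin h) := by
      rw [Real.sin_add]
      ring
    have t1 : |Real.sin (x - β) * (1 - Real.cos h)| ≤ h ^ 2 := by
      rw [abs_mul]
      calc |Real.sin (x - β)| * |1 - Real.cos h| ≤ 1 * h ^ 2 :=
            mul_le_mul (Real.abs_sin_le_one _) hcos (abs_nonneg _) zero_le_one
        _ = h ^ 2 := one_mul _
    have t2 : |Real.cos (x - β) * (h - Real.sin h)| ≤ h ^ 2 := by
      rw [abs_mul]
      calc |Real.cos (x - β)| * |h - Real.sin h| ≤ 1 * h ^ 2 :=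
            mul_le_mul (Real.abs_cos_le_one _) hsin (abs_nonneg _) zero_le_one
        _ = h ^ 2 := one_mul _
    have t3 : |Real.sin (x - β + h)| ≤ D / x ^ 2 + h ^ 2 + h ^ 2 := by
      rw [e]
      refine (abs_sub _ _).trans ?_
      refine add_le_add ?_ t2
      refine (abs_sub _ _).trans ?_
      exact add_le_add hD t1
    have t4 : D / x ^ 2 + h ^ 2 + h ^ 2 ≤ (D + c ^ 2) / x ^ 2 := by
      rw [hh2, add_div]
      have : c ^ 2 / 4 / x ^ 2 + c ^ 2 / 4 / x ^ 2 ≤ c ^ 2 / x ^ 2 := by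
        rw [← add_div]
        refine div_le_div_of_nonneg_right ?_ (by positivity)
        nlinarith [sq_nonneg c]
      linarith
    exact t3.trans t4
  refine ⟨round ((x - β + h) / Real.pi), ?_⟩
  set k : ℤ := round ((x - β + h) / Real.pi) with hk
  have hpi := Real.pi_pos
  have h1 : |(x - β + h) / Real.pi - k| ≤ 1 / 2 := abs_sub_round _
  have e2 : x - β - k * Real.pi + h = x - β + h - k * Real.pi := by ring
  have h2 : |x - β + h - k * Real.pi| ≤ Real.pi / 2 := by
    have e3 : x - β + h - k * Real.pi = ((x - β + h) / Real.pi - k) * Real.pi := by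
      field_simp
    rw [e3, abs_mul, abs_of_pos hpi]
    nlinarith
  have h3 := Real.mul_abs_le_abs_sin h2
  have h4 : |Real.sin (x - β + h - k * Real.pi)| = |Real.sin (x - β + h)| := by
    rw [Real.sin_sub_int_mul_pi, abs_mul, abs_zpow, abs_neg, abs_one, one_zpow, one_mul]
  rw [h4] at h3
  rw [e2]
  have h5 : |x - β + h - k * Real.pi| ≤ Real.pi / 2 * |Real.sin (x - β + h)| := by
    have h6 : Real.pi / 2 * (2 / Real.pi * |x - β + h - k * Real.pi|) ≤
        Real.pi / 2 * |Real.sin (x - β + h)| := mul_le_mul_of_nonneg_left h3 (by positivity)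
    have h7 : Real.pi / 2 * (2 / Real.pi * |x - β + h - k * Real.pi|) =
        |x - β + h - k * Real.pi| := by
      field_simp
    rw [h7] at h6
    exact h6
  calc |x - β + h - k * Real.pi| ≤ Real.pi / 2 * |Real.sin (x - β + h)| := h5
    _ ≤ 2 * ((D + c ^ 2) / x ^ 2) := by
        refine mul_le_mul ?_ hs (abs_nonneg _) (by norm_num)
        linarith [Real.pi_le_four]
    _ = 2 * (D + c ^ 2) / x ^ 2 := by ring

theorem yas : YasStmt := by
  intro c
  set κ : ℝ := |c - c ^ 2 / 2| with hκ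
  set e : ℝ := Real.exp (|c| / 2) with he
  have hκ0 : 0 ≤ κ := abs_nonneg _
  have he0 : 0 < e := Real.exp_pos _
  have hc0 : 0 ≤ |c| := abs_nonneg c
  refine ⟨2 * (6 * κ * e ^ 2 + c ^ 2) + 1, 1 + |c|, by positivity, by linarith,
    fun y y' hB => ?_⟩
  obtain ⟨hE1, hE⟩ := yas_E c y y' hB
  set E1 : ℝ := y 1 ^ 2 + y' 1 ^ 2 with hE1d
  set r : ℝ := Real.sqrt E1 with hr
  have hr0 : 0 < r := Real.sqrt_pos.mpr hE1
  have hr2 : r ^ 2 = E1 := Real.sq_sqrt hE1.le
  have hyb : ∀ x, 1 ≤ x → |y x| ≤ r * e := by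
    intro x hx
    refine abs_le_of_sq_le_sq ?_ (by positivity)
    rw [mul_pow, hr2]
    have := (hE x hx).2
    nlinarith [sq_nonneg (y' x)]
  set K : ℝ := κ * (r * e) with hKd
  have hK0 : 0 ≤ K := by positivity
  have hWb : ∀ (T : ℝ → ℝ), (∀ x, |T x| ≤ 1) → ∀ x, 1 ≤ x →
      |(c - c ^ 2 / 2) * T x * y x / x ^ 3| ≤ K / x ^ 3 := by
    intro T hT x hx
    rw [abs_div, abs_of_pos (by positivity : (0 : ℝ) < x ^ 3), abs_mul, abs_mul]
    refine div_le_div_of_nonneg_right ?_ (by positivity)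
    have h1 : κ * |T x| ≤ κ * 1 := mul_le_mul_of_nonneg_left (hT x) hκ0
    rw [mul_one] at h1
    exact mul_le_mul h1 (hyb x hx) (abs_nonneg _) hκ0
  obtain ⟨w1, hw1⟩ := yas_lim K (yasW c y y' Real.sin Real.cos) _
    (fun x hx => yas_dW c y y' Real.sin Real.cos hB Real.hasDerivAt_sin Real.hasDerivAt_cos x
      (by linarith)) (hWb Real.cos Real.abs_cos_le_one)
  obtain ⟨w2, hw2⟩ := yas_lim K (yasW c y y' Real.cos (fun x => -Real.sin x)) _
    (fun x hx => yas_dW c y y' Real.cos (fun x => -Real.sin x) hB Real.hasDerivAt_cos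
      (fun x => (Real.hasDerivAt_sin x).neg) x (by linarith))
    (hWb (fun x => -Real.sin x) (fun x => by rw [abs_neg]; exact Real.abs_sin_le_one x))
  -- lower bound for the limit
  have hlow : E1 / (8 * e ^ 2) ≤ w1 ^ 2 + w2 ^ 2 := by
    set x : ℝ := 1 + 2 * |c| + 2 * κ * e ^ 2 with hxd
    have hke : 0 ≤ 2 * κ * e ^ 2 := by positivity
    have hx1 : 1 ≤ x := by linarith
    have hx0 : 0 < x := by linarith
    have hW1 := hw1 x hx1
    have hW2 := hw2 x hx1
    set W1 : ℝ := yasW c y y' Real.sin Real.cos x with hW1d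
    set W2 : ℝ := yasW c y y' Real.cos (fun x => -Real.sin x) x with hW2d
    set h : ℝ := c / (2 * x) with hh
    set g : ℝ := c / (2 * x ^ 2) with hg
    have hh1 : |h| ≤ 1 / 4 := by
      rw [hh, abs_div, abs_of_pos (by positivity : (0 : ℝ) < 2 * x), div_le_iff₀ (by positivity)]
      linarith
    have hg1 : |g| ≤ 1 / 4 := by
      rw [hg, abs_div, abs_of_pos (by positivity : (0 : ℝ) < 2 * x ^ 2),
        div_le_iff₀ (by positivity)]
      nlinarith
    have hQ : W1 ^ 2 + W2 ^ 2 = (y x) ^ 2 * (h ^ 2 + (1 - g) ^ 2) + 2 * (y x) * (y' x) * (h * g) +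
        (y' x) ^ 2 * (1 + h ^ 2) := by
      have e1 : W1 ^ 2 + W2 ^ 2 = (Real.sin x ^ 2 + Real.cos x ^ 2) *
          ((y x) ^ 2 * (h ^ 2 + (1 - g) ^ 2) + 2 * (y x) * (y' x) * (h * g) +
            (y' x) ^ 2 * (1 + h ^ 2)) := by
        rw [hW1d, hW2d]
        simp only [yasW]
        rw [← hh, ← hg]
        ring
      rw [e1, Real.sin_sq_add_cos_sq, one_mul]
    have hQ2 : (y x ^ 2 + y' x ^ 2) / 2 ≤ W1 ^ 2 + W2 ^ 2 := by
      rw [hQ]
      have a1 : |h * g| ≤ 1 / 16 := by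
        rw [abs_mul]
        calc |h| * |g| ≤ 1 / 4 * (1 / 4) := mul_le_mul hh1 hg1 (abs_nonneg _) (by norm_num)
          _ = 1 / 16 := by norm_num
      have a2 : |2 * (y x) * (y' x) * (h * g)| ≤ (y x ^ 2 + y' x ^ 2) * (1 / 16) := by
        rw [abs_mul]
        refine mul_le_mul ?_ a1 (abs_nonneg _) (by positivity)
        rw [abs_mul, abs_mul, abs_two]
        have := two_mul_le_add_sq (|y x|) (|y' x|)
        rw [sq_abs, sq_abs] at this
        exact this
      have a3 := (abs_le.mp a2).1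
      have a4 : 9 / 16 ≤ (1 - g) ^ 2 := by
        have := (abs_le.mp hg1).2
        nlinarith
      have a5 : (y x) ^ 2 * (9 / 16) ≤ (y x) ^ 2 * (h ^ 2 + (1 - g) ^ 2) :=
        mul_le_mul_of_nonneg_left (by nlinarith [sq_nonneg h]) (sq_nonneg _)
      have a6 : (y' x) ^ 2 * 1 ≤ (y' x) ^ 2 * (1 + h ^ 2) :=
        mul_le_mul_of_nonneg_left (by nlinarith [sq_nonneg h]) (sq_nonneg _)
      linarith [sq_nonneg (y x), sq_nonneg (y' x)]
    have hlowE := (hE x hx1).1
    have hKx : (K / (2 * x ^ 2)) ^ 2 ≤ E1 / (16 * e ^ 2) := by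
      have b1 : 2 * κ * e ^ 2 ≤ x ^ 2 :=
        le_trans (by linarith : 2 * κ * e ^ 2 ≤ x) (le_self_pow₀ hx1 two_ne_zero)
      have b2 : K / (2 * x ^ 2) ≤ r / (4 * e) := by
        rw [div_le_div_iff₀ (by positivity) (by positivity), hKd]
        have : κ * (r * e) * (4 * e) = 2 * r * (2 * κ * e ^ 2) := by ring
        rw [this]
        have h2 : 2 * r * (2 * κ * e ^ 2) ≤ 2 * r * x ^ 2 :=
          mul_le_mul_of_nonneg_left b1 (by positivity)
        linarith
      have b3 : (K / (2 * x ^ 2)) ^ 2 ≤ (r / (4 * e)) ^ 2 :=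
        pow_le_pow_left₀ (by positivity) b2 2
      have b4 : (r / (4 * e)) ^ 2 = E1 / (16 * e ^ 2) := by
        rw [div_pow, hr2]
        congr 1
        ring
      rw [b4] at b3
      exact b3
    have c1 : (W1 - w1) ^ 2 ≤ E1 / (16 * e ^ 2) := by
      refine le_trans ?_ hKx
      rw [← sq_abs (W1 - w1)]
      exact pow_le_pow_left₀ (abs_nonneg _) hW1 2
    have c2 : (W2 - w2) ^ 2 ≤ E1 / (16 * e ^ 2) := by
      refine le_trans ?_ hKx
      rw [← sq_abs (W2 - w2)]
      exact pow_le_pow_left₀ (abs_nonneg _) hW2 2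
    have c3 : W1 ^ 2 ≤ 2 * w1 ^ 2 + 2 * (W1 - w1) ^ 2 := by nlinarith [sq_nonneg (W1 - 2 * w1)]
    have c4 : W2 ^ 2 ≤ 2 * w2 ^ 2 + 2 * (W2 - w2) ^ 2 := by nlinarith [sq_nonneg (W2 - 2 * w2)]
    have c5 : E1 / (16 * e ^ 2) = E1 / e ^ 2 / 16 := by
      field_simp
    have c6 : E1 / (8 * e ^ 2) = E1 / e ^ 2 / 8 := by
      field_simp
    rw [c5] at c1 c2
    rw [c6]
    have c7 : 0 < E1 / e ^ 2 := by positivity
    linarith
  -- the phase
  set z : ℂ := ⟨w2, w1⟩ with hz
  set ρ : ℝ := ‖z‖ with hρ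
  have hρ2 : ρ ^ 2 = w1 ^ 2 + w2 ^ 2 := by
    rw [hρ, Complex.sq_norm, Complex.normSq_apply]
    ring
  have hρ0 : 0 < ρ := by
    have : 0 < ρ ^ 2 := by
      rw [hρ2]
      exact lt_of_lt_of_le (by positivity) hlow
    exact lt_of_le_of_ne (norm_nonneg z) (fun h0 => by rw [← h0] at this; norm_num at this)
  have hzne : z ≠ 0 := norm_pos_iff.mp hρ0
  have hρr : r / (3 * e) ≤ ρ := by
    refine le_of_sq_le_sq ?_ hρ0.le
    rw [hρ2, div_pow, hr2]
    refine le_trans ?_ hlow
    refine div_le_div_of_nonneg_left hE1.le (by positivity) ?_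
    nlinarith [sq_nonneg e]
  have hsinβ : w1 = ρ * Real.sin (Complex.arg z) := by
    rw [Complex.sin_arg]
    show w1 = ρ * (w1 / ρ)
    field_simp
  have hcosβ : w2 = ρ * Real.cos (Complex.arg z) := by
    rw [Complex.cos_arg hzne]
    show w2 = ρ * (w2 / ρ)
    field_simp
  refine ⟨Complex.arg z, fun x hx hyx => ?_⟩
  set β : ℝ := Complex.arg z with hβ
  have hx1 : 1 ≤ x := by linarith
  have hx0 : 0 < x := by linarith
  have hcx : |c| ≤ x := by linarith
  have hmain : |Real.sin (x - β) + c / (2 * x) * Real.cos (x - β)| ≤ 6 * κ * e ^ 2 / x ^ 2 := by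
    have hW1 := hw1 x hx1
    have hW2 := hw2 x hx1
    set h : ℝ := c / (2 * x) with hh
    have hh1 : |h| ≤ 1 / 2 := by
      rw [hh, abs_div, abs_of_pos (by positivity : (0 : ℝ) < 2 * x), div_le_iff₀ (by positivity)]
      linarith
    have d1 : yasW c y y' Real.sin Real.cos x = - (y' x) * (Real.sin x + h * Real.cos x) := by
      simp only [yasW]
      rw [hyx]
      ring
    have d2 : yasW c y y' Real.cos (fun x => -Real.sin x) x =
        - (y' x) * (Real.cos x - h * Real.sin x) := by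
      simp only [yasW]
      rw [hyx]
      ring
    have f1 : |Real.sin x + h * Real.cos x| ≤ 3 / 2 := by
      have a1 := Real.abs_sin_le_one x
      have a2 : |h * Real.cos x| ≤ 1 / 2 * 1 := by
        rw [abs_mul]
        exact mul_le_mul hh1 (Real.abs_cos_le_one x) (abs_nonneg _) (by norm_num)
      linarith [abs_add_le (Real.sin x) (h * Real.cos x)]
    have f2 : |Real.cos x - h * Real.sin x| ≤ 3 / 2 := by
      have a1 := Real.abs_cos_le_one x
      have a2 : |h * Real.sin x| ≤ 1 / 2 * 1 := by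
        rw [abs_mul]
        exact mul_le_mul hh1 (Real.abs_sin_le_one x) (abs_nonneg _) (by norm_num)
      linarith [abs_sub (Real.cos x) (h * Real.sin x)]
    set W1 : ℝ := yasW c y y' Real.sin Real.cos x with hW1d
    set W2 : ℝ := yasW c y y' Real.cos (fun x => -Real.sin x) x with hW2d
    have e1 : ρ * (Real.sin (x - β) + h * Real.cos (x - β)) =
        (Real.cos x - h * Real.sin x) * (W1 - w1) - (Real.sin x + h * Real.cos x) * (W2 - w2) := by
      have e3 : (Real.cos x - h * Real.sin x) * (W1 - w1) -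
          (Real.sin x + h * Real.cos x) * (W2 - w2) =
          (Real.sin x + h * Real.cos x) * w2 - (Real.cos x - h * Real.sin x) * w1 := by
        rw [d1, d2]
        ring
      rw [e3, hcosβ, hsinβ, Real.sin_sub, Real.cos_sub]
      ring
    have e2 : ρ * |Real.sin (x - β) + h * Real.cos (x - β)| ≤ 3 * (K / (2 * x ^ 2)) := by
      have e0 : ρ * |Real.sin (x - β) + h * Real.cos (x - β)| =
          |ρ * (Real.sin (x - β) + h * Real.cos (x - β))| := by
        rw [abs_mul, abs_of_pos hρ0]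
      rw [e0, e1]
      refine (abs_sub _ _).trans ?_
      rw [abs_mul, abs_mul]
      have a1 : |Real.cos x - h * Real.sin x| * |W1 - w1| ≤ 3 / 2 * (K / (2 * x ^ 2)) :=
        mul_le_mul f2 hW1 (abs_nonneg _) (by norm_num)
      have a2 : |Real.sin x + h * Real.cos x| * |W2 - w2| ≤ 3 / 2 * (K / (2 * x ^ 2)) :=
        mul_le_mul f1 hW2 (abs_nonneg _) (by norm_num)
      linarith
    have e4 : r / (3 * e) * |Real.sin (x - β) + h * Real.cos (x - β)| ≤
        3 * (K / (2 * x ^ 2)) :=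
      le_trans (mul_le_mul_of_nonneg_right hρr (abs_nonneg _)) e2
    have e5 : |Real.sin (x - β) + h * Real.cos (x - β)| ≤
        3 * (K / (2 * x ^ 2)) / (r / (3 * e)) := by
      rw [le_div_iff₀ (by positivity)]
      linarith
    refine e5.trans ?_
    have e6 : 3 * (K / (2 * x ^ 2)) / (r / (3 * e)) = 9 / 2 * κ * e ^ 2 / x ^ 2 := by
      rw [hKd]
      field_simp
      norm_num
      ring
    rw [e6]
    refine div_le_div_of_nonneg_right ?_ (by positivity)
    have : 0 ≤ κ * e ^ 2 := by positivity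
    nlinarith
  obtain ⟨k, hk⟩ := yas_trig c x β (6 * κ * e ^ 2) hx1 hcx hmain
  refine ⟨k, hk.trans ?_⟩
  refine div_le_div_of_nonneg_right ?_ (by positivity)
  linarith

end Pool.Agent.BER.H27
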